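import Pool.Agent.H122R2.N6.Defs

/-! Five-vertex flags for 3-graphs with a bipartition of every link. -/

set_option autoImplicit false
set_option maxRecDepth 100000

namespace Pool.Agent.Y580.LB

open Pool.Agent.H122R2.N6

def xr (a b : ℕ) : ℕ := Nat.xor a b

def td (a b c e : ℕ) : ℕ := Nat.add a (Nat.add (Nat.mul 2 b) (Nat.add (Nat.mul 4 c) (Nat.mul 8 e)))

def fd (a b c x y : ℕ) : ℕ := Nat.add a (Nat.add (Nat.mul 2 b) (Nat.add (Nat.mul 4 c)
  (Nat.add (Nat.mul 8 x) (Nat.mul 16 y))))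

/-- three times the product of two bits plus the product of their complements -/
def rr (e f : ℕ) : ℕ := Nat.add (Nat.mul (Nat.sub 1 e) (Nat.sub 1 f)) (Nat.mul 3 (Nat.mul e f))

def leafq (q : ℕ → ℕ → ℕ → ℕ) (c01 c02 c03 c04 c10 c12 c13 c14 c20 c21 c23 c24 c30 c31 c32 c34 c40 c41 c42 c43 e012 e013 e023 e123 e014 e024 e124 e034 e134 e234 : ℕ) : ℕ :=
  (Nat.add (q (td (xr c01 c02) (xr c10 c12) (xr c20 c21) e012) (fd (xr c01 c03) (xr c10 c13) (xr c20 c23) (xr c30 c31) (xr c30 c32)) (fd (xr c01 c04) (xr c10 c14) (xr c20 c24) (xr c40 c41) (xr c40 c42)))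
    (Nat.add (q (td (xr c01 c03) (xr c10 c13) (xr c30 c31) e013) (fd (xr c01 c02) (xr c10 c12) (xr c30 c32) (xr c20 c21) (xr c20 c23)) (fd (xr c01 c04) (xr c10 c14) (xr c30 c34) (xr c40 c41) (xr c40 c43)))
    (Nat.add (q (td (xr c02 c03) (xr c20 c23) (xr c30 c32) e023) (fd (xr c02 c01) (xr c20 c21) (xr c30 c31) (xr c10 c12) (xr c10 c13)) (fd (xr c02 c04) (xr c20 c24) (xr c30 c34) (xr c40 c42) (xr c40 c43)))
    (Nat.add (q (td (xr c12 c13) (xr c21 c23) (xr c31 c32) e123) (fd (xr c12 c10) (xr c21 c20) (xr c31 c30) (xr c01 c02) (xr c01 c03)) (fd (xr c12 c14) (xr c21 c24) (xr c31 c34) (xr c41 c42) (xr c41 c43)))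
    (Nat.add (q (td (xr c01 c04) (xr c10 c14) (xr c40 c41) e014) (fd (xr c01 c02) (xr c10 c12) (xr c40 c42) (xr c20 c21) (xr c20 c24)) (fd (xr c01 c03) (xr c10 c13) (xr c40 c43) (xr c30 c31) (xr c30 c34)))
    (Nat.add (q (td (xr c02 c04) (xr c20 c24) (xr c40 c42) e024) (fd (xr c02 c01) (xr c20 c21) (xr c40 c41) (xr c10 c12) (xr c10 c14)) (fd (xr c02 c03) (xr c20 c23) (xr c40 c43) (xr c30 c32) (xr c30 c34)))
    (Nat.add (q (td (xr c12 c14) (xr c21 c24) (xr c41 c42) e124) (fd (xr c12 c10) (xr c21 c20) (xr c41 c40) (xr c01 c02) (xr c01 c04)) (fd (xr c12 c13) (xr c21 c23) (xr c41 c43) (xr c31 c32) (xr c31 c34)))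
    (Nat.add (q (td (xr c03 c04) (xr c30 c34) (xr c40 c43) e034) (fd (xr c03 c01) (xr c30 c31) (xr c40 c41) (xr c10 c13) (xr c10 c14)) (fd (xr c03 c02) (xr c30 c32) (xr c40 c42) (xr c20 c23) (xr c20 c24)))
    (Nat.add (q (td (xr c13 c14) (xr c31 c34) (xr c41 c43) e134) (fd (xr c13 c10) (xr c31 c30) (xr c41 c40) (xr c01 c03) (xr c01 c04)) (fd (xr c13 c12) (xr c31 c32) (xr c41 c42) (xr c21 c23) (xr c21 c24)))
    (q (td (xr c23 c24) (xr c32 c34) (xr c42 c43) e234) (fd (xr c23 c20) (xr c32 c30) (xr c42 c40) (xr c02 c03) (xr c02 c04)) (fd (xr c23 c21) (xr c32 c31) (xr c42 c41) (xr c12 c13) (xr c12 c14))))))))))))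

def leafr (e012 e013 e023 e123 e014 e024 e124 e034 e134 e234 : ℕ) : ℕ :=
  (Nat.add (rr e012 e034)
    (Nat.add (rr e013 e024)
    (Nat.add (rr e014 e023)
    (Nat.add (rr e012 e134)
    (Nat.add (rr e013 e124)
    (Nat.add (rr e014 e123)
    (Nat.add (rr e012 e234)
    (Nat.add (rr e023 e124)
    (Nat.add (rr e024 e123)
    (Nat.add (rr e013 e234)
    (Nat.add (rr e023 e134)
    (Nat.add (rr e034 e123)
    (Nat.add (rr e014 e234)
    (Nat.add (rr e024 e134)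
    (rr e034 e124)))))))))))))))

/-- check both values of an edge variable, the value one only if the triple is split -/
def BE (s : ℕ) (f : ℕ → Bool) : Bool := and (f 0) (or (Nat.beq s 0) (f 1))

def sp (a b c : ℕ) : ℕ := Nat.mul a (Nat.mul b c)

/-- a copy of the forbidden configuration -/
def m4 (a b c d : ℕ) : Bool := Nat.beq (Nat.mul a (Nat.mul b (Nat.mul c d))) 1

/-- the leaf inequality for all edge sets -/
def lchk (q : ℕ → ℕ → ℕ → ℕ) (g C : ℕ) (c01 c02 c03 c04 c10 c12 c13 c14 c20 c21 c23 c24 c30 c31 c32 c34 c40 c41 c42 c43 : ℕ) : Bool :=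
  (BE (sp (xr c01 c02) (xr c10 c12) (xr c20 c21)) fun e012 => (BE (sp (xr c01 c03) (xr c10 c13) (xr c30 c31)) fun e013 => (BE (sp (xr c02 c03) (xr c20 c23) (xr c30 c32)) fun e023 => (BE (sp (xr c12 c13) (xr c21 c23) (xr c31 c32)) fun e123 => (BE (sp (xr c01 c04) (xr c10 c14) (xr c40 c41)) fun e014 => (BE (sp (xr c02 c04) (xr c20 c24) (xr c40 c42)) fun e024 => (BE (sp (xr c12 c14) (xr c21 c24) (xr c41 c42)) fun e124 => (BE (sp (xr c03 c04) (xr c30 c34) (xr c40 c43)) fun e034 => (BE (sp (xr c13 c14) (xr c31 c34) (xr c41 c43)) fun e134 => (BE (sp (xr c23 c24) (xr c32 c34) (xr c42 c43)) fun e234 => (or (m4 e012 e013 e014 e234) (or (m4 e012 e023 e024 e134) (or (m4 e013 e023 e034 e124) (or (m4 e014 e024 e034 e123) (or (m4 e012 e123 e124 e034) (or (m4 e013 e123 e134 e024) (or (m4 e014 e124 e134 e023) (or (m4 e023 e123 e234 e014) (or (m4 e024 e124 e234 e013) (or (m4 e034 e134 e234 e012) (Nat.ble (Nat.add (leafq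 q c01 c02 c03 c04 c10 c12 c13 c14 c20 c21 c23 c24 c30 c31 c32 c34 c40 c41 c42 c43 e012 e013 e023 e123 e014 e024 e124 e034 e134 e234) (Nat.mul g (leafr e012 e013 e023 e123 e014 e024 e124 e034 e134 e234))) C)))))))))))))))))))))

def part (q : ℕ → ℕ → ℕ → ℕ) (g C : ℕ) (c02 c03 c04 : ℕ) : Bool :=
  B2 fun c12 => B2 fun c13 => B2 fun c14 => B2 fun c21 => B2 fun c23 => B2 fun c24 => B2 fun c31 => B2 fun c32 => B2 fun c34 => B2 fun c41 => B2 fun c42 => B2 fun c43 => lchk q g C 0 c02 c03 c04 0 c12 c13 c14 0 c21 c23 c24 0 c31 c32 c34 0 c41 c42 c43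

end Pool.Agent.Y580.LB
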