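import Pool.Agent.Y580.LB.Tab
import Pool.Agent.Y580.LB.Def

set_option autoImplicit false
set_option maxRecDepth 100000

namespace Pool.Agent.Y580.LB

theorem part000 : part q3 G4 CST 0 0 0 = true := by decide +kernel

end Pool.Agent.Y580.LB
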