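import Pool.Agent.Y580.LB.TabL

set_option autoImplicit false
set_option maxRecDepth 100000

namespace Pool.Agent.Y580.LB

open Pool.Agent.H122R2.N6

theorem cp0 : chk4 0 = true := by decide +kernel
theorem cp1 : chk4 1 = true := by decide +kernel
theorem cp2 : chk4 2 = true := by decide +kernel
theorem cp3 : chk4 3 = true := by decide +kernel
theorem cp4 : chk4 4 = true := by decide +kernel
theorem rng : (nall 16 fun c => and (Nat.blt (rho c) 5) (and (Nat.beq (Nat.shiftRight (rho c) 2) (Nat.shiftRight c 3)) (nall 32 fun i => Nat.blt (pc c i) 32))) = true := by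
  decide +kernel

end Pool.Agent.Y580.LB
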