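import Mathlib

/-! Statements for the density of 3-graphs without F_{3,2} and without long odd cycles in links. -/

set_option autoImplicit false
open Finset

namespace Pool.Agent.Y580.LB

/-- the class of 3-graphs of the problem -/
def Good (n : ℕ) (H : Finset (Finset (Fin n))) : Prop :=
  (∀ e ∈ H, e.card = 3) ∧
  (¬ ∃ f : Fin 5 → Fin n, Function.Injective f ∧
      ({f 0, f 1, f 2} : Finset (Fin n)) ∈ H ∧
      ({f 0, f 3, f 4} : Finset (Fin n)) ∈ H ∧
      ({f 1, f 3, f 4} : Finset (Fin n)) ∈ H ∧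
      ({f 2, f 3, f 4} : Finset (Fin n)) ∈ H) ∧
  (∀ v : Fin n, ∀ k : ℕ, 5 ≤ k → Odd k →
      ¬ ∃ c : Fin k → Fin n, Function.Injective c ∧ (∀ i, c i ≠ v) ∧
        ∀ i : Fin k, ({v, c i, c (finRotate k i)} : Finset (Fin n)) ∈ H)

/-- DFS: a graph without odd cycles of length at least five has a colouring by parity such that the
badly coloured edges join a vertex to its grandparent -/
def S_DFS : Prop := ∀ (n : ℕ) (G : SimpleGraph (Fin n)),
  (∀ k : ℕ, 5 ≤ k → Odd k →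
    ¬ ∃ c : Fin k → Fin n, Function.Injective c ∧ ∀ i : Fin k, G.Adj (c i) (c (finRotate k i))) →
  ∃ (h : Fin n → ℕ) (g : Fin n → Fin n), ∀ x y, G.Adj x y →
    h x % 2 ≠ h y % 2 ∨ y = g x ∨ x = g y

/-- LOW: the construction -/
def S_LOW : Prop := ∀ n : ℕ, ∃ H : Finset (Finset (Fin n)), Good n H ∧ n.choose 3 ≤ 4 * H.card

/-- the flag inequality (not a job) -/
def S_FLAG : Prop := ∀ (V : Type) (_ : Fintype V) (c : V → V → ℕ) (E : V → V → V → ℕ),
  (∀ v x, c v x = 0 ∨ c v x = 1) → (∀ x y z, E x y z = 0 ∨ E x y z = 1) →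
  (∀ x y z, E y x z = E x y z) → (∀ x y z, E x z y = E x y z) →
  (∀ v x y, E v x y = 1 → c v x ≠ c v y) →
  (∀ a b x y z, ¬ (E a b x = 1 ∧ E a b y = 1 ∧ E a b z = 1 ∧ E x y z = 1)) →
  4 * ∑ x, ∑ y, ∑ z, E x y z ≤ (Fintype.card V) ^ 3

/-- the upper bound -/
def S_UP : Prop := ∀ (n : ℕ) (H : Finset (Finset (Fin n))), Good n H →
  24 * H.card ≤ n ^ 3 + 24 * n ^ 2

/-- RED: links from DFS, then the flag inequality for the edges split at all their vertices -/
def S_RED : Prop := S_DFS → S_FLAG → S_UP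

/-- FIN: the frozen statement from both bounds -/
def S_FIN : Prop := S_UP → S_LOW →
    ∀ ε : ℝ, 0 < ε → ∃ N : ℕ, ∀ n : ℕ, N ≤ n →
      (∀ H : Finset (Finset (Fin n)),
        ((∀ e ∈ H, e.card = 3) ∧
          (¬ ∃ f : Fin 5 → Fin n, Function.Injective f ∧
              ({f 0, f 1, f 2} : Finset (Fin n)) ∈ H ∧
              ({f 0, f 3, f 4} : Finset (Fin n)) ∈ H ∧
              ({f 1, f 3, f 4} : Finset (Fin n)) ∈ H ∧
              ({f 2, f 3, f 4} : Finset (Fin n)) ∈ H) ∧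
          (∀ v : Fin n, ∀ k : ℕ, 5 ≤ k → Odd k →
              ¬ ∃ c : Fin k → Fin n, Function.Injective c ∧ (∀ i, c i ≠ v) ∧
                ∀ i : Fin k, ({v, c i, c (finRotate k i)} : Finset (Fin n)) ∈ H)) →
        (H.card : ℝ) ≤ (1 / 4 + ε) * ((n.choose 3 : ℕ) : ℝ)) ∧
      (∃ H : Finset (Finset (Fin n)),
        ((∀ e ∈ H, e.card = 3) ∧
          (¬ ∃ f : Fin 5 → Fin n, Function.Injective f ∧
              ({f 0, f 1, f 2} : Finset (Fin n)) ∈ H ∧
              ({f 0, f 3, f 4} : Finset (Fin n)) ∈ H ∧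
              ({f 1, f 3, f 4} : Finset (Fin n)) ∈ H ∧
              ({f 2, f 3, f 4} : Finset (Fin n)) ∈ H) ∧
          (∀ v : Fin n, ∀ k : ℕ, 5 ≤ k → Odd k →
              ¬ ∃ c : Fin k → Fin n, Function.Injective c ∧ (∀ i, c i ≠ v) ∧
                ∀ i : Fin k, ({v, c i, c (finRotate k i)} : Finset (Fin n)) ∈ H)) ∧
        (1 / 4 - ε) * ((n.choose 3 : ℕ) : ℝ) ≤ (H.card : ℝ))

end Pool.Agent.Y580.LB
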