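import Pool.Agent.Y580.LB.Lib
import Pool.Agent.Y580.LB.Stm
import Pool.Agent.Y580.LB.Psd
import Pool.Agent.Y580.LB.Part000
import Pool.Agent.Y580.LB.Part001
import Pool.Agent.Y580.LB.Part010
import Pool.Agent.Y580.LB.Part011
import Pool.Agent.Y580.LB.Part100
import Pool.Agent.Y580.LB.Part101
import Pool.Agent.Y580.LB.Part110
import Pool.Agent.Y580.LB.Part111

/-! The flag inequality. -/

set_option autoImplicit false
set_option maxRecDepth 100000
set_option maxHeartbeats 4000000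
open Finset

namespace Pool.Agent.Y580.LB
open Pool.Agent.H122R2.N6

theorem hp (x y z : ℕ) (hx : Bt x) (hy : Bt y) (hz : Bt z) : part q3 G4 CST x y z = true := by
  rcases hx with rfl | rfl <;> rcases hy with rfl | rfl <;> rcases hz with rfl | rfl
  exacts [part000, part001, part010, part011, part100, part101, part110, part111]

theorem rng_c {t : ℕ} (h : t < 16) : rho t < 5 ∧ Nat.shiftRight (rho t) 2 = Nat.shiftRight t 3 ∧
    ∀ i < 32, pc t i < 32 := by
  have h1 := nall_true rng t h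
  rw [Bool.and_eq_true, Bool.and_eq_true] at h1
  exact ⟨Nat.le_of_ble_eq_true h1.1, Nat.eq_of_beq_eq_true h1.2.1,
    fun i hi => Nat.le_of_ble_eq_true (nall_true h1.2.2 i hi)⟩

theorem g4_all {r i j : ℕ} (hr : r < 5) (hi : i < 32) (hj : j < 32) : g4 r i j = true := by
  have h : chk4 r = true := by
    interval_cases r
    exacts [cp0, cp1, cp2, cp3, cp4]
  exact nall_true (nall_true h i hi) j hj

theorem expand (s : Finset ℕ) (w u v : ℕ → ℕ) (B : ℤ) :
    ∑ k ∈ s, (w k : ℤ) * ((u k : ℤ) - B) * ((v k : ℤ) - B) =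
      ∑ k ∈ s, (w k : ℤ) * ((u k : ℤ) * (v k : ℤ)) + B ^ 2 * ∑ k ∈ s, (w k : ℤ)
        - B * (∑ k ∈ s, (w k : ℤ) * (u k : ℤ) + ∑ k ∈ s, (w k : ℤ) * (v k : ℤ)) := by
  rw [mul_add, mul_sum, mul_sum, mul_sum, ← sum_add_distrib, ← sum_add_distrib, ← sum_sub_distrib]
  exact sum_congr rfl fun k _ => by ring

theorem hq (t i j : ℕ) (ht : t < 16) (hi : i < 32) (hj : j < 32) : (q3 t i j : ℤ) =
    ∑ k ∈ range 42, (w4 (rho t) k : ℤ) * ((l4 (rho t) (pc t i) k : ℤ) - 4096) *
      ((l4 (rho t) (pc t j) k : ℤ) - 4096) + (17592186044416 + 9999999999936 * (Nat.shiftRight t 3 : ℕ)) := by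
  obtain ⟨h1, h2, h3⟩ := rng_c ht
  have h := Nat.eq_of_beq_eq_true (g4_all h1 (h3 i hi) (h3 j hj))
  unfold ll sw sl at h
  rw [nsum_eq, nsum_eq, nsum_eq, nsum_eq] at h
  have h4 : sr (rho t) = 9999999999936 * Nat.shiftRight t 3 := by rw [← h2]; rfl
  rw [h4] at h
  have h2 := congrArg (fun n : ℕ => (n : ℤ)) h
  simp only [Nat.add_eq, Nat.mul_eq] at h2
  push_cast at h2
  rw [expand (range 42) (fun k => w4 (rho t) k) (fun k => l4 (rho t) (pc t i) k)
    (fun k => l4 (rho t) (pc t j) k) 4096]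
  have h3 : (q3 t i j : ℤ) = (tq (rho t) (pc t i) (pc t j) : ℤ) := rfl
  rw [h3]
  linarith

theorem main {V : Type} [Fintype V] {c : V → V → ℕ} {E : V → V → V → ℕ} (h : Sys c E) :
    4 * ∑ a, ∑ b, ∑ d, (E a b d : ℤ) ≤ (Fintype.card V : ℤ) ^ 3 := by
  have hb := bound5 c E h 42 G4 CST q3 (fun t k => w4 (rho t) k) (fun t i k => l4 (rho t) (pc t i) k)
    4096 17592186044416 9999999999936 hq hp
  have hG : (G4 : ℤ) = 1391732449776 := rfl
  have hC : (CST : ℤ) = 216578850503980 := rfl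
  rw [hG, hC] at hb
  rcases Nat.eq_zero_or_pos (Fintype.card V) with h0 | h0
  · have : IsEmpty V := Fintype.card_eq_zero_iff.mp h0
    simp [h0]
  · have hn : (0 : ℤ) < (Fintype.card V : ℤ) := by exact_mod_cast h0
    have hn2 : (0 : ℤ) < (Fintype.card V : ℤ) ^ 2 := by positivity
    have h5 : (Fintype.card V : ℤ) ^ 2 * (4 * ∑ a, ∑ b, ∑ d, (E a b d : ℤ))
        ≤ (Fintype.card V : ℤ) ^ 2 * (Fintype.card V : ℤ) ^ 3 := by
      nlinarith [hb]
    exact le_of_mul_le_mul_left h5 hn2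

theorem flag : S_FLAG := by
  intro V _ c E hc hE hs1 hs2 hsp hf
  have h : Sys c E := by
    refine ⟨hc, ⟨hE, hs1, hs2⟩, ?_, ?_⟩
    · intro v x y h1
      have h2 := hsp v x y h1
      rcases hc v x with h3 | h3 <;> rcases hc v y with h4 | h4 <;> rw [h3, h4] at h2 ⊢ <;>
        first | exact absurd rfl h2 | rfl
    · intro a b x y z
      have h2 := hf a b x y z
      rcases hE a b x with h3 | h3 <;> rcases hE a b y with h4 | h4 <;>
        rcases hE a b z with h5 | h5 <;> rcases hE x y z with h6 | h6 <;> rw [h3, h4, h5, h6] at h2 ⊢ <;>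
        first | rfl | exact absurd ⟨rfl, rfl, rfl, rfl⟩ h2
  have h1 := main h
  have h2 : ((4 * ∑ x, ∑ y, ∑ z, E x y z : ℕ) : ℤ) ≤ (((Fintype.card V) ^ 3 : ℕ) : ℤ) := by
    push_cast
    exact h1
  exact_mod_cast h2

end Pool.Agent.Y580.LB
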