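import Pool.Agent.Y580.LB.Def
import Pool.Agent.H122R2.N6.Bound

/-! Soundness of the leaf check and the sums over all five-tuples. -/

set_option autoImplicit false
set_option maxRecDepth 100000
set_option maxHeartbeats 4000000
open Finset

namespace Pool.Agent.Y580.LB
open Pool.Agent.H122R2.N6

theorem xr0 (r a : ℕ) : xr 0 (xr r a) = xr r a := Nat.zero_xor _

theorem xr1 (r a b : ℕ) : xr (xr r a) (xr r b) = xr a b := by
  show (r ^^^ a) ^^^ (r ^^^ b) = a ^^^ b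
  rw [Nat.xor_comm r a, Nat.xor_assoc, ← Nat.xor_assoc r r b, Nat.xor_self, Nat.zero_xor]

theorem xr2 (r a : ℕ) : xr (xr r a) 0 = xr a r := by
  show (r ^^^ a) ^^^ 0 = a ^^^ r
  rw [Nat.xor_zero, Nat.xor_comm]

theorem lchk_norm (q : ℕ → ℕ → ℕ → ℕ) (g C : ℕ) (c01 c02 c03 c04 c10 c12 c13 c14 c20 c21 c23 c24 c30 c31 c32 c34 c40 c41 c42 c43 : ℕ) :
    lchk q g C 0 (xr c01 c02) (xr c01 c03) (xr c01 c04) 0 (xr c10 c12) (xr c10 c13) (xr c10 c14) 0 (xr c20 c21) (xr c20 c23) (xr c20 c24) 0 (xr c30 c31) (xr c30 c32) (xr c30 c34) 0 (xr c40 c41) (xr c40 c42) (xr c40 c43) = lchk q g C c01 c02 c03 c04 c10 c12 c13 c14 c20 c21 c23 c24 c30 c31 c32 c34 c40 c41 c42 c43 := by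
  unfold lchk leafq
  simp only [xr0, xr1, xr2]

theorem xr_bt {a b : ℕ} (ha : Bt a) (hb : Bt b) : Bt (xr a b) := by
  rcases ha with rfl | rfl <;> rcases hb with rfl | rfl <;> first | exact Or.inl rfl | exact Or.inr rfl

theorem BE_true {s e : ℕ} {f : ℕ → Bool} (h : BE s f = true) (he : e = 0 ∨ (e = 1 ∧ s = 1)) :
    f e = true := by
  have h' : (f 0 && (Nat.beq s 0 || f 1)) = true := h
  rw [Bool.and_eq_true] at h'
  rcases he with rfl | ⟨rfl, rfl⟩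
  · exact h'.1
  · exact or_false_left h'.2 rfl

section
variable {V : Type}

/-- the systems to which the check applies -/
structure Sys (c : V → V → ℕ) (E : V → V → V → ℕ) : Prop where
  cb : ∀ v x, Bt (c v x)
  sy : Sy E
  sp : ∀ v x y, E v x y = 1 → xr (c v x) (c v y) = 1
  ff : ∀ a b x y z, m4 (E a b x) (E a b y) (E a b z) (E x y z) = false

variable (c : V → V → ℕ) (E : V → V → V → ℕ)

def F (q : ℕ → ℕ → ℕ → ℕ) (a b d x y : V) : ℕ :=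
  q (td (xr (c a b) (c a d)) (xr (c b a) (c b d)) (xr (c d a) (c d b)) (E a b d))
    (fd (xr (c a b) (c a x)) (xr (c b a) (c b x)) (xr (c d a) (c d x)) (xr (c x a) (c x b)) (xr (c x a) (c x d)))
    (fd (xr (c a b) (c a y)) (xr (c b a) (c b y)) (xr (c d a) (c d y)) (xr (c y a) (c y b)) (xr (c y a) (c y d)))

def R (a b d x y : V) : ℕ := rr (E a b d) (E a x y)

def LF (q : ℕ → ℕ → ℕ → ℕ) (a0 a1 a2 a3 a4 : V) : ℕ :=
  (F c E q a0 a1 a2 a3 a4 +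
    (F c E q a0 a1 a3 a2 a4 +
    (F c E q a0 a2 a3 a1 a4 +
    (F c E q a1 a2 a3 a0 a4 +
    (F c E q a0 a1 a4 a2 a3 +
    (F c E q a0 a2 a4 a1 a3 +
    (F c E q a1 a2 a4 a0 a3 +
    (F c E q a0 a3 a4 a1 a2 +
    (F c E q a1 a3 a4 a0 a2 +
    F c E q a2 a3 a4 a0 a1)))))))))

def LR (a0 a1 a2 a3 a4 : V) : ℕ :=
  (R E a0 a1 a2 a3 a4 +
    (R E a0 a1 a3 a2 a4 +
    (R E a0 a1 a4 a2 a3 +
    (R E a1 a0 a2 a3 a4 +
    (R E a1 a0 a3 a2 a4 +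
    (R E a1 a0 a4 a2 a3 +
    (R E a2 a0 a1 a3 a4 +
    (R E a2 a0 a3 a1 a4 +
    (R E a2 a0 a4 a1 a3 +
    (R E a3 a0 a1 a2 a4 +
    (R E a3 a0 a2 a1 a4 +
    (R E a3 a0 a4 a1 a2 +
    (R E a4 a0 a1 a2 a3 +
    (R E a4 a0 a2 a1 a3 +
    R E a4 a0 a3 a1 a2))))))))))))))

variable {c E}

theorem esp (h : Sys c E) (a b d : V) : E a b d = 0 ∨ (E a b d = 1 ∧
    Pool.Agent.Y580.LB.sp (xr (c a b) (c a d)) (xr (c b a) (c b d)) (xr (c d a) (c d b)) = 1) := by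
  rcases h.sy.b a b d with h0 | h1
  · exact Or.inl h0
  · refine Or.inr ⟨h1, ?_⟩
    rw [h.sp a b d h1, h.sp b a d (by rw [h.sy.h213]; exact h1),
      h.sp d a b (by rw [h.sy.h312]; exact h1)]
    rfl

theorem lchk_sound (h : Sys c E) (q : ℕ → ℕ → ℕ → ℕ) (g C : ℕ) (a0 a1 a2 a3 a4 : V)
    (hl : lchk q g C (c a0 a1) (c a0 a2) (c a0 a3) (c a0 a4) (c a1 a0) (c a1 a2) (c a1 a3) (c a1 a4) (c a2 a0) (c a2 a1) (c a2 a3) (c a2 a4) (c a3 a0) (c a3 a1) (c a3 a2) (c a3 a4) (c a4 a0) (c a4 a1) (c a4 a2) (c a4 a3) = true) :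
    LF c E q a0 a1 a2 a3 a4 + g * LR E a0 a1 a2 a3 a4 ≤ C := by
  have b0 : m4 (E a0 a1 a2) (E a0 a1 a3) (E a0 a1 a4) (E a2 a3 a4) = false := h.ff a0 a1 a2 a3 a4
  have b1 : m4 (E a0 a1 a2) (E a0 a2 a3) (E a0 a2 a4) (E a1 a3 a4) = false := by
    have h0 := h.ff a0 a2 a1 a3 a4
    rwa [h.sy.h132 a0 a1 a2] at h0
  have b2 : m4 (E a0 a1 a3) (E a0 a2 a3) (E a0 a3 a4) (E a1 a2 a4) = false := by
    have h0 := h.ff a0 a3 a1 a2 a4
    rwa [h.sy.h132 a0 a1 a3, h.sy.h132 a0 a2 a3] at h0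
  have b3 : m4 (E a0 a1 a4) (E a0 a2 a4) (E a0 a3 a4) (E a1 a2 a3) = false := by
    have h0 := h.ff a0 a4 a1 a2 a3
    rwa [h.sy.h132 a0 a1 a4, h.sy.h132 a0 a2 a4, h.sy.h132 a0 a3 a4] at h0
  have b4 : m4 (E a0 a1 a2) (E a1 a2 a3) (E a1 a2 a4) (E a0 a3 a4) = false := by
    have h0 := h.ff a1 a2 a0 a3 a4
    rwa [h.sy.h231 a0 a1 a2] at h0
  have b5 : m4 (E a0 a1 a3) (E a1 a2 a3) (E a1 a3 a4) (E a0 a2 a4) = false := by
    have h0 := h.ff a1 a3 a0 a2 a4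
    rwa [h.sy.h231 a0 a1 a3, h.sy.h132 a1 a2 a3] at h0
  have b6 : m4 (E a0 a1 a4) (E a1 a2 a4) (E a1 a3 a4) (E a0 a2 a3) = false := by
    have h0 := h.ff a1 a4 a0 a2 a3
    rwa [h.sy.h231 a0 a1 a4, h.sy.h132 a1 a2 a4, h.sy.h132 a1 a3 a4] at h0
  have b7 : m4 (E a0 a2 a3) (E a1 a2 a3) (E a2 a3 a4) (E a0 a1 a4) = false := by
    have h0 := h.ff a2 a3 a0 a1 a4
    rwa [h.sy.h231 a0 a2 a3, h.sy.h231 a1 a2 a3] at h0
  have b8 : m4 (E a0 a2 a4) (E a1 a2 a4) (E a2 a3 a4) (E a0 a1 a3) = false := by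
    have h0 := h.ff a2 a4 a0 a1 a3
    rwa [h.sy.h231 a0 a2 a4, h.sy.h231 a1 a2 a4, h.sy.h132 a2 a3 a4] at h0
  have b9 : m4 (E a0 a3 a4) (E a1 a3 a4) (E a2 a3 a4) (E a0 a1 a2) = false := by
    have h0 := h.ff a3 a4 a0 a1 a2
    rwa [h.sy.h231 a0 a3 a4, h.sy.h231 a1 a3 a4, h.sy.h231 a2 a3 a4] at h0
  have h1 := Nat.le_of_ble_eq_true (or_false_left (or_false_left (or_false_left (or_false_left (or_false_left (or_false_left (or_false_left (or_false_left (or_false_left (or_false_left (BE_true (BE_true (BE_true (BE_true (BE_true (BE_true (BE_true (BE_true (BE_true (BE_true hl (esp h a0 a1 a2)) (esp h a0 a1 a3)) (esp h a0 a2 a3)) (esp h a1 a2 a3)) (esp h a0 a1 a4)) (esp h a0 a2 a4)) (esp h a1 a2 a4)) (esp h a0 a3 a4)) (esp h a1 a3 a4)) (esp h a2 a3 a4)) b0) b1) b2) b3) b4) b5) b6) b7) b8) b9)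
  have e1 : LR E a0 a1 a2 a3 a4 = leafr (E a0 a1 a2) (E a0 a1 a3) (E a0 a2 a3) (E a1 a2 a3) (E a0 a1 a4) (E a0 a2 a4) (E a1 a2 a4) (E a0 a3 a4) (E a1 a3 a4) (E a2 a3 a4) := by
    unfold LR R
    rw [h.sy.h213 a0 a1 a2, h.sy.h213 a0 a1 a3, h.sy.h213 a0 a1 a4, h.sy.h312 a0 a1 a2, h.sy.h213 a0 a2 a3, h.sy.h213 a1 a2 a4, h.sy.h213 a0 a2 a4, h.sy.h213 a1 a2 a3, h.sy.h312 a0 a1 a3, h.sy.h213 a2 a3 a4, h.sy.h312 a0 a2 a3, h.sy.h213 a1 a3 a4, h.sy.h213 a0 a3 a4, h.sy.h312 a1 a2 a3, h.sy.h312 a0 a1 a4, h.sy.h312 a2 a3 a4, h.sy.h312 a0 a2 a4, h.sy.h312 a1 a3 a4, h.sy.h312 a0 a3 a4, h.sy.h312 a1 a2 a4]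
    rfl
  rw [e1]
  exact h1

theorem leaf_all (h : Sys c E) (q : ℕ → ℕ → ℕ → ℕ) (g C : ℕ)
    (hp : ∀ x y z, Bt x → Bt y → Bt z → part q g C x y z = true) (a0 a1 a2 a3 a4 : V) :
    LF c E q a0 a1 a2 a3 a4 + g * LR E a0 a1 a2 a3 a4 ≤ C := by
  apply lchk_sound h
  have hx : ∀ v x y, Bt (xr (c v x) (c v y)) := fun v x y => xr_bt (h.cb v x) (h.cb v y)
  have hp := hp _ _ _ (hx a0 a1 a2) (hx a0 a1 a3) (hx a0 a1 a4)
  have h1 := (B2_true (B2_true (B2_true (B2_true (B2_true (B2_true (B2_true (B2_true (B2_true (B2_true (B2_true (B2_true hp (hx a1 a0 a2)) (hx a1 a0 a3)) (hx a1 a0 a4)) (hx a2 a0 a1)) (hx a2 a0 a3)) (hx a2 a0 a4)) (hx a3 a0 a1)) (hx a3 a0 a2)) (hx a3 a0 a4)) (hx a4 a0 a1)) (hx a4 a0 a2)) (hx a4 a0 a3))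
  exact (lchk_norm q g C (c a0 a1) (c a0 a2) (c a0 a3) (c a0 a4) (c a1 a0) (c a1 a2) (c a1 a3) (c a1 a4) (c a2 a0) (c a2 a1) (c a2 a3) (c a2 a4) (c a3 a0) (c a3 a1) (c a3 a2) (c a3 a4) (c a4 a0) (c a4 a1) (c a4 a2) (c a4 a3)).symm.trans h1

end

section
variable {V : Type} [Fintype V]

theorem psum5 (F : V → V → V → V → V → ℤ) (g : Fin 5 → Fin 5) (hg : Function.Bijective g) :
    ∑ x : Fin 5 → V, F (x (g 0)) (x (g 1)) (x (g 2)) (x (g 3)) (x (g 4))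
      = ∑ x : Fin 5 → V, F (x 0) (x 1) (x 2) (x 3) (x 4) := by
  have h := Equiv.sum_comp (Equiv.arrowCongr (Equiv.ofBijective g hg).symm (Equiv.refl V))
    (fun x => F (x 0) (x 1) (x 2) (x 3) (x 4))
  rw [← h]
  rfl

def e5 (V : Type) : (Fin 5 → V) ≃ V × V × V × V × V where
  toFun x := (x 0, x 1, x 2, x 3, x 4)
  invFun p := ![p.1, p.2.1, p.2.2.1, p.2.2.2.1, p.2.2.2.2]
  left_inv x := by funext i; fin_cases i <;> rfl
  right_inv p := rfl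

theorem conv5 (F : V → V → V → V → V → ℤ) :
    ∑ x : Fin 5 → V, F (x 0) (x 1) (x 2) (x 3) (x 4)
      = ∑ a, ∑ b, ∑ d, ∑ e, ∑ f, F a b d e f := by
  rw [← Equiv.sum_comp (e5 V).symm]
  simp only [Fintype.sum_prod_type]
  rfl

variable (c : V → V → ℕ) (E : V → V → V → ℕ)

theorem sumLF (q : ℕ → ℕ → ℕ → ℕ) :
    ∑ x : Fin 5 → V, (LF c E q (x 0) (x 1) (x 2) (x 3) (x 4) : ℤ)
      = 10 * ∑ x : Fin 5 → V, (F c E q (x 0) (x 1) (x 2) (x 3) (x 4) : ℤ) := by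
  have f4 : ∀ i0 i1 i2 i3 i4 : Fin 5, Function.Injective ![i0, i1, i2, i3, i4] →
      ∑ x : Fin 5 → V, (F c E q (x i0) (x i1) (x i2) (x i3) (x i4) : ℤ)
      = ∑ x : Fin 5 → V, (F c E q (x 0) (x 1) (x 2) (x 3) (x 4) : ℤ) :=
    fun i0 i1 i2 i3 i4 hg =>
      psum5 (fun a b d e f => (F c E q a b d e f : ℤ)) ![i0, i1, i2, i3, i4]
        (Finite.injective_iff_bijective.mp hg)
  simp only [LF, Nat.cast_add, sum_add_distrib]
  rw [f4 0 1 3 2 4 (by decide), f4 0 2 3 1 4 (by decide), f4 1 2 3 0 4 (by decide), f4 0 1 4 2 3 (by decide), f4 0 2 4 1 3 (by decide), f4 1 2 4 0 3 (by decide), f4 0 3 4 1 2 (by decide), f4 1 3 4 0 2 (by decide), f4 2 3 4 0 1 (by decide)]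
  ring

theorem sumLR :
    ∑ x : Fin 5 → V, (LR E (x 0) (x 1) (x 2) (x 3) (x 4) : ℤ)
      = 15 * ∑ x : Fin 5 → V, (R E (x 0) (x 1) (x 2) (x 3) (x 4) : ℤ) := by
  have r4 : ∀ i0 i1 i2 i3 i4 : Fin 5, Function.Injective ![i0, i1, i2, i3, i4] →
      ∑ x : Fin 5 → V, (R E (x i0) (x i1) (x i2) (x i3) (x i4) : ℤ)
      = ∑ x : Fin 5 → V, (R E (x 0) (x 1) (x 2) (x 3) (x 4) : ℤ) :=
    fun i0 i1 i2 i3 i4 hg =>
      psum5 (fun a b d e f => (R E a b d e f : ℤ)) ![i0, i1, i2, i3, i4]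
        (Finite.injective_iff_bijective.mp hg)
  simp only [LR, Nat.cast_add, sum_add_distrib]
  rw [r4 0 1 3 2 4 (by decide), r4 0 1 4 2 3 (by decide), r4 1 0 2 3 4 (by decide), r4 1 0 3 2 4 (by decide), r4 1 0 4 2 3 (by decide), r4 2 0 1 3 4 (by decide), r4 2 0 3 1 4 (by decide), r4 2 0 4 1 3 (by decide), r4 3 0 1 2 4 (by decide), r4 3 0 2 1 4 (by decide), r4 3 0 4 1 2 (by decide), r4 4 0 1 2 3 (by decide), r4 4 0 2 1 3 (by decide), r4 4 0 3 1 2 (by decide)]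
  ring

theorem td_lt {a b d e : ℕ} (ha : Bt a) (hb : Bt b) (hd : Bt d) (he : Bt e) : td a b d e < 16 := by
  have := Bt_lt ha; have := Bt_lt hb; have := Bt_lt hd; have := Bt_lt he
  show a + (2 * b + (4 * d + 8 * e)) < 16
  omega

theorem fd_lt {a b d x y : ℕ} (ha : Bt a) (hb : Bt b) (hd : Bt d) (hx : Bt x) (hy : Bt y) :
    fd a b d x y < 32 := by
  have := Bt_lt ha; have := Bt_lt hb; have := Bt_lt hd; have := Bt_lt hx; have := Bt_lt hy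
  show a + (2 * b + (4 * d + (8 * x + 16 * y))) < 32
  omega

theorem td_shift {a b d e : ℕ} (ha : Bt a) (hb : Bt b) (hd : Bt d) (he : Bt e) :
    Nat.shiftRight (td a b d e) 3 = e := by
  rcases ha with rfl | rfl <;> rcases hb with rfl | rfl <;> rcases hd with rfl | rfl <;>
    rcases he with rfl | rfl <;> rfl

theorem lower3 (h : Sys c E) (K : ℕ) (q : ℕ → ℕ → ℕ → ℕ) (W : ℕ → ℕ → ℕ) (l : ℕ → ℕ → ℕ → ℕ)
    (B O S : ℤ)
    (hq : ∀ t i j, t < 16 → i < 32 → j < 32 → (q t i j : ℤ) =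
      ∑ k ∈ range K, (W t k : ℤ) * ((l t i k : ℤ) - B) * ((l t j k : ℤ) - B)
        + (O + S * (Nat.shiftRight t 3 : ℕ))) :
    O * (Fintype.card V : ℤ) ^ 5 + (Fintype.card V : ℤ) ^ 2 * (S * ∑ a, ∑ b, ∑ d, (E a b d : ℤ))
      ≤ ∑ x : Fin 5 → V, (F c E q (x 0) (x 1) (x 2) (x 3) (x 4) : ℤ) := by
  rw [conv5 (fun a b d e f => (F c E q a b d e f : ℤ))]
  have e1 : O * (Fintype.card V : ℤ) ^ 5
        + (Fintype.card V : ℤ) ^ 2 * (S * ∑ a, ∑ b, ∑ d, (E a b d : ℤ))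
      = ∑ a : V, ∑ b : V, ∑ d : V, ∑ e : V, ∑ f : V, (O + S * (E a b d : ℤ)) := by
    simp only [sum_const, card_univ, nsmul_eq_mul, sum_add_distrib, mul_sum]
    have : ∀ a b d : V, (Fintype.card V : ℤ) ^ 2 * (S * (E a b d : ℤ))
        = (Fintype.card V : ℤ) * ((Fintype.card V : ℤ) * (S * (E a b d : ℤ))) :=
      fun a b d => by ring
    simp only [this, mul_add, sum_add_distrib, sum_const, card_univ, nsmul_eq_mul]
    ring
  rw [e1]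
  refine sum_le_sum fun a _ => sum_le_sum fun b _ => sum_le_sum fun d _ => ?_
  have hx : ∀ v x y, Bt (xr (c v x) (c v y)) := fun v x y => xr_bt (h.cb v x) (h.cb v y)
  have e2 : ∀ e f : V, (F c E q a b d e f : ℤ) = _ := fun e f =>
    hq _ _ _ (td_lt (hx a b d) (hx b a d) (hx d a b) (h.sy.b a b d))
      (fd_lt (hx a b e) (hx b a e) (hx d a e) (hx e a b) (hx e a d))
      (fd_lt (hx a b f) (hx b a f) (hx d a f) (hx f a b) (hx f a d))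
  simp only [e2, sum_add_distrib]
  rw [td_shift (hx a b d) (hx b a d) (hx d a b) (h.sy.b a b d)]
  have p := psd K (fun k => W (td (xr (c a b) (c a d)) (xr (c b a) (c b d)) (xr (c d a) (c d b)) (E a b d)) k)
    (fun k e => (l (td (xr (c a b) (c a d)) (xr (c b a) (c b d)) (xr (c d a) (c d b)) (E a b d))
      (fd (xr (c a b) (c a e)) (xr (c b a) (c b e)) (xr (c d a) (c d e)) (xr (c e a) (c e b)) (xr (c e a) (c e d))) k : ℤ) - B)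
  linarith

theorem rr_eq {e f : ℕ} (he : Bt e) (hf : Bt f) :
    (4 * (rr e f : ℕ) : ℤ) = (4 * (e : ℤ) - 1) * (4 * (f : ℤ) - 1) + 3 := by
  rcases he with rfl | rfl <;> rcases hf with rfl | rfl <;> decide

theorem quad (u : V → V → ℤ) : ∑ b, ∑ d, ∑ e, ∑ f, (u b d * u e f + 3) =
    (∑ b, ∑ d, u b d) * (∑ e, ∑ f, u e f) + 3 * (Fintype.card V : ℤ) ^ 4 := by
  have h1 : ∀ b d, ∑ e, ∑ f, (u b d * u e f + 3) =
      u b d * (∑ e, ∑ f, u e f) + 3 * (Fintype.card V : ℤ) ^ 2 := fun b d => by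
    simp only [sum_add_distrib, sum_const, card_univ, nsmul_eq_mul, mul_sum]
    ring
  rw [sum_congr rfl fun b _ => sum_congr rfl fun d _ => h1 b d]
  simp only [sum_add_distrib, ← sum_mul, sum_const, card_univ, nsmul_eq_mul]
  ring

theorem lowerR (h : Sys c E) :
    3 * (Fintype.card V : ℤ) ^ 5
      ≤ 4 * ∑ x : Fin 5 → V, (R E (x 0) (x 1) (x 2) (x 3) (x 4) : ℤ) := by
  rw [conv5 (fun a b d e f => (R E a b d e f : ℤ)), mul_sum]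
  have e1 : 3 * (Fintype.card V : ℤ) ^ 5 = ∑ a : V, 3 * (Fintype.card V : ℤ) ^ 4 := by
    rw [sum_const, card_univ, nsmul_eq_mul]
    ring
  rw [e1]
  refine sum_le_sum fun a _ => ?_
  have e2 : 4 * ∑ b, ∑ d, ∑ e, ∑ f, (R E a b d e f : ℤ) =
      (∑ b, ∑ d, (4 * (E a b d : ℤ) - 1)) * (∑ e, ∑ f, (4 * (E a e f : ℤ) - 1))
        + 3 * (Fintype.card V : ℤ) ^ 4 := by
    have e3 : ∀ b d e f : V, 4 * (R E a b d e f : ℤ) =
        (4 * (E a b d : ℤ) - 1) * (4 * (E a e f : ℤ) - 1) + 3 := fun b d e f =>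
      rr_eq (h.sy.b a b d) (h.sy.b a e f)
    rw [← quad]
    simp only [mul_sum, e3]
  rw [e2]
  nlinarith [mul_self_nonneg (∑ b, ∑ d, (4 * (E a b d : ℤ) - 1))]

theorem bound5 (h : Sys c E) (K g C : ℕ) (q : ℕ → ℕ → ℕ → ℕ) (W : ℕ → ℕ → ℕ)
    (l : ℕ → ℕ → ℕ → ℕ) (B O S : ℤ)
    (hq : ∀ t i j, t < 16 → i < 32 → j < 32 → (q t i j : ℤ) =
      ∑ k ∈ range K, (W t k : ℤ) * ((l t i k : ℤ) - B) * ((l t j k : ℤ) - B)
        + (O + S * (Nat.shiftRight t 3 : ℕ)))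
    (hp : ∀ x y z, Bt x → Bt y → Bt z → part q g C x y z = true) :
    4 * (10 * (O * (Fintype.card V : ℤ) ^ 5
        + (Fintype.card V : ℤ) ^ 2 * (S * ∑ a, ∑ b, ∑ d, (E a b d : ℤ))))
      + 45 * (g * (Fintype.card V : ℤ) ^ 5) ≤ 4 * (C * (Fintype.card V : ℤ) ^ 5) := by
  have A3 := lower3 c E h K q W l B O S hq
  have AR := lowerR c E h
  have key : ∑ x : Fin 5 → V, ((LF c E q (x 0) (x 1) (x 2) (x 3) (x 4) : ℤ)
      + g * (LR E (x 0) (x 1) (x 2) (x 3) (x 4) : ℤ)) ≤ C * (Fintype.card V : ℤ) ^ 5 := by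
    calc _ ≤ ∑ x : Fin 5 → V, (C : ℤ) :=
          sum_le_sum fun x _ => by
            exact_mod_cast leaf_all h q g C hp (x 0) (x 1) (x 2) (x 3) (x 4)
      _ = C * (Fintype.card V : ℤ) ^ 5 := by
          rw [sum_const, card_univ, Fintype.card_fun, Fintype.card_fin, nsmul_eq_mul]
          push_cast
          ring
  rw [sum_add_distrib, ← mul_sum, sumLF c E q, sumLR E] at key
  have hg : (0 : ℤ) ≤ g := Int.natCast_nonneg g
  have h2 := mul_le_mul_of_nonneg_left AR hg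
  nlinarith [h2, key, A3]

end
end Pool.Agent.Y580.LB
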